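import Pool.Agent.H34.RCd

/-!
The first `n` points of the prime number graph are covered by at most `(1/2 + ε) n` lines of
pairwise different slopes, for every `ε > 0` and all large `n`.
-/

namespace Pool.Agent.Results.MP_d7df89_nt.HalfBound

open Finset H34RC

/-- The point `P_k = (k, p_k)`, where `p_k` is the `k`-th prime (`k ≥ 1`; `Nat.nth` counts
from 0). -/
noncomputable def pt (k : ℕ) : ℝ × ℝ := ((k : ℝ), (Nat.nth Nat.Prime (k - 1) : ℝ))

/-- A pair `(slope, intercept)` is a line of the plane: `(some s, t)` is the line `y = s x + t`,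
and `(none, t)` is the vertical line `x = t`.  `OnLine l p`: the point `p` lies on `l`. -/
def OnLine (l : Option ℝ × ℝ) (p : ℝ × ℝ) : Prop :=
  match l with
  | (some s, t) => p.2 = s * p.1 + t
  | (none, t) => p.1 = t

/-- For every `ε > 0` and all large `n` there are at most `(1/2 + ε) n` lines of pairwise
different slopes that cover `P_1, ..., P_n`: that is, `L_np(n) ≤ (1/2 + ε) n`. -/
theorem result (ε : ℝ) (hε : 0 < ε) : ∃ n₀ : ℕ, ∀ n : ℕ, n₀ ≤ n →
    ∃ 𝓛 : Finset (Option ℝ × ℝ), Set.InjOn Prod.fst (𝓛 : Set (Option ℝ × ℝ)) ∧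
      (∀ k : ℕ, 1 ≤ k → k ≤ n → ∃ l ∈ 𝓛, OnLine l (pt k)) ∧
      (𝓛.card : ℝ) ≤ (1 / 2 + ε) * n := by
  classical
  obtain ⟨n₀, hn₀⟩ := abstract_bound ε hε
  refine ⟨n₀, fun n hn => ?_⟩
  let a : Fin n → ℝ := fun i => (pt (i.1 + 1)).1
  let b : Fin n → ℝ := fun i => (pt (i.1 + 1)).2
  have ha : ∀ i j : Fin n, i ≠ j → a i ≠ a j := by
    intro i j hij h
    apply hij
    have h2 : ((i.1 + 1 : ℕ) : ℝ) = ((j.1 + 1 : ℕ) : ℝ) := h
    have h3 : i.1 + 1 = j.1 + 1 := by exact_mod_cast h2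
    exact Fin.ext (by omega)
  let col : Fin n → Fin n → ℝ := fun i j => (b j - b i) / (a j - a i)
  have hcol : ∀ i j : Fin n, i ≠ j → ∀ c, col i j = c → b j - b i = c * (a j - a i) := by
    intro i j hij c hc
    have h1 : a j - a i ≠ 0 := sub_ne_zero.2 (ha j i (Ne.symm hij))
    rw [← hc]
    exact (div_mul_cancel₀ _ h1).symm
  have hs : ∀ i j, col i j = col j i := by
    intro i j
    change (b j - b i) / (a j - a i) = (b i - b j) / (a i - a j)
    rw [← neg_sub (b i) (b j), ← neg_sub (a i) (a j), neg_div_neg_eq]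
  have ht : ∀ i j k, i ≠ j → j ≠ k → i ≠ k → col i j = col j k → col i k = col i j := by
    intro i j k hij hjk hik h
    have h1 := hcol i j hij _ rfl
    have h2 := hcol j k hjk _ h.symm
    have h3 : a k - a i ≠ 0 := sub_ne_zero.2 (ha k i (Ne.symm hik))
    change (b k - b i) / (a k - a i) = _
    rw [div_eq_iff h3]
    linarith
  obtain ⟨f, hf, hcost⟩ := hn₀ (Fin n) ℝ col hs ht (by rw [Fintype.card_fin]; exact hn)
  rw [Fintype.card_fin] at hcost
  obtain ⟨B, hB⟩ := (used f).bddAbove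
  have hB' : ∀ c ∈ used f, c ≤ B := fun c hc => hB (mem_coe.2 hc)
  have hch : ∀ c : ℝ, ∃ t : ℝ, ∀ x ∈ cls f c, b x = c * a x + t := by
    intro c
    by_cases hne : (cls f c).Nonempty
    · obtain ⟨x, hx⟩ := hne
      refine ⟨b x - c * a x, fun y hy => ?_⟩
      by_cases hxy : x = y
      · rw [← hxy]
        ring
      · have := hcol x y hxy c (hf c x hx y hy hxy)
        linarith
    · refine ⟨0, fun x hx => absurd ⟨x, hx⟩ hne⟩
  choose t htc using hch
  let g1 : ℝ → Option ℝ × ℝ := fun c => (some c, t c)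
  let g2 : Fin n → Option ℝ × ℝ := fun x =>
    (some (B + 1 + (x.1 : ℝ)), b x - (B + 1 + (x.1 : ℝ)) * a x)
  refine ⟨(used f).image g1 ∪ (unc f).image g2, ?_, ?_, ?_⟩
  · intro l hl l' hl' h
    rw [mem_coe, mem_union, mem_image, mem_image] at hl hl'
    rcases hl with ⟨c, hc, rfl⟩ | ⟨x, hx, rfl⟩ <;> rcases hl' with ⟨c', hc', rfl⟩ | ⟨x', hx', rfl⟩
    · have h1 : c = c' := Option.some_injective _ h
      rw [h1]
    · exfalso
      have h1 : c = B + 1 + (x'.1 : ℝ) := Option.some_injective _ h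
      have h2 := hB' c hc
      have h3 : (0 : ℝ) ≤ (x'.1 : ℝ) := Nat.cast_nonneg _
      linarith
    · exfalso
      have h1 : B + 1 + (x.1 : ℝ) = c' := Option.some_injective _ h
      have h2 := hB' c' hc'
      have h3 : (0 : ℝ) ≤ (x.1 : ℝ) := Nat.cast_nonneg _
      linarith
    · have h1 : B + 1 + (x.1 : ℝ) = B + 1 + (x'.1 : ℝ) := Option.some_injective _ h
      have h2 : (x.1 : ℝ) = (x'.1 : ℝ) := by linarith
      have h3 : x = x' := Fin.ext (by exact_mod_cast h2)
      rw [h3]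
  · intro k hk1 hkn
    have hk : k - 1 < n := by omega
    have hpt : pt k = (a ⟨k - 1, hk⟩, b ⟨k - 1, hk⟩) := by
      change pt k = pt (k - 1 + 1)
      rw [Nat.sub_add_cancel hk1]
    rw [hpt]
    rcases hfx : f ⟨k - 1, hk⟩ with _ | c
    · refine ⟨g2 ⟨k - 1, hk⟩, mem_union_right _ (mem_image_of_mem _ (mem_unc.2 hfx)), ?_⟩
      change b ⟨k - 1, hk⟩ = (B + 1 + ((k - 1 : ℕ) : ℝ)) * a ⟨k - 1, hk⟩
        + (b ⟨k - 1, hk⟩ - (B + 1 + ((k - 1 : ℕ) : ℝ)) * a ⟨k - 1, hk⟩)
      ring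
    · refine ⟨g1 c, mem_union_left _ (mem_image_of_mem _ (mem_used.2 ⟨_, hfx⟩)), ?_⟩
      exact htc c _ (mem_cls.2 hfx)
  · refine le_trans ?_ hcost
    have h1 : ((used f).image g1 ∪ (unc f).image g2).card ≤ cost f := by
      refine (card_union_le _ _).trans ?_
      have h2 : ((used f).image g1).card ≤ (used f).card := card_image_le
      have h3 : ((unc f).image g2).card ≤ (unc f).card := card_image_le
      unfold cost
      omega
    exact_mod_cast h1

end Pool.Agent.Results.MP_d7df89_nt.HalfBound
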